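import Pool.Agent.Lib.H74E.Table

/-!
Lower bounds for the number of `n ≤ x` such that `n / 2 ^ n` is a sum of at least two distinct
terms `a / 2 ^ a`.  Every odd `D` for which `2 - W D` is a power of `2` modulo `D` gives a family
of such `n`, one for every large `L` in a residue class modulo the order of `2` modulo `D`; the
families of different `D` have only finitely many elements in common.
-/

namespace Pool.Agent.Results.MP_2aed32_nt.LogCount

open Finset Pool.Agent.Lib.H74E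

private lemma ord_facts (D : ℕ) (hD : Odd D) :
    1 ≤ orderOf (2 : ZMod D) ∧ 2 ^ orderOf (2 : ZMod D) ≡ 1 [MOD D] := by
  have h1 : 2 ^ D.totient ≡ 1 [MOD D] := Nat.ModEq.pow_totient (Nat.coprime_two_left.2 hD)
  have h2 : (2 : ZMod D) ^ D.totient = 1 := by
    have := (ZMod.natCast_eq_natCast_iff (2 ^ D.totient) 1 D).2 h1
    push_cast at this
    exact this
  refine ⟨orderOf_pos_iff.2 (isOfFinOrder_iff_pow_eq_one.2
    ⟨D.totient, Nat.totient_pos.2 hD.pos, h2⟩), ?_⟩
  rw [← ZMod.natCast_eq_natCast_iff]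
  push_cast
  exact pow_orderOf_eq_one (2 : ZMod D)

/-- the counting lemma for property E -/
private lemma count_propE (F : Finset (ℕ × ℕ × ℕ)) (hF : ∀ t ∈ F, Fam t)
    (hinj : ∀ t ∈ F, ∀ t' ∈ F, t.1 = t'.1 → t = t')
    (c : ℝ) (hc : c < ∑ t ∈ F, (1 : ℝ) / t.2.2) :
    ∀ᶠ x : ℕ in Filter.atTop,
      c * Real.logb 2 x ≤ ({n : ℕ | 1 ≤ n ∧ n ≤ x ∧ PropE n}.ncard : ℝ) := by
  classical
  obtain ⟨B, hB⟩ := fam_bound F
  have h := count_lower PropE F hF (fun t ht t' ht' e L _ _ => hinj t ht t' ht' e) B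
    (fun t ht L hL hmod => fam_propE t (hF t ht) L (hB t ht L hL).1 (hB t ht L hL).2.1 hmod
      (hB t ht L hL).2.2) c hc
  filter_upwards [h] with x hx
  have e : {n : ℕ | 1 ≤ n ∧ n ≤ x ∧ PropE n} = (({n ∈ Icc 1 x | PropE n} : Finset ℕ) : Set ℕ) := by
    ext n; simp [and_assoc]
  rw [e, Set.ncard_coe_finset]
  exact hx

/-- A finite set `F` of odd `D` such that `2 - W D` is a power of `2` modulo `D` gives at least
`c log_2 x` integers `n ≤ x` with property E for large `x`, for every `c` below the sum of the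
`1 / ord_D(2)`.  In particular there are at least `5 log_2 x` of them for all large `x`. -/
theorem result :
    (∀ F : Finset ℕ, (∀ D ∈ F, Odd D ∧ ∃ k : ℕ, 2 ^ k + W D ≡ 2 [MOD D]) →
      ∀ c : ℝ, c < ∑ D ∈ F, (1 : ℝ) / orderOf (2 : ZMod D) →
        ∀ᶠ x : ℕ in Filter.atTop,
          c * Real.logb 2 x ≤ ({n : ℕ | 1 ≤ n ∧ n ≤ x ∧ PropE n}.ncard : ℝ)) ∧
    ∀ᶠ x : ℕ in Filter.atTop,
      5 * Real.logb 2 x ≤ ({n : ℕ | 1 ≤ n ∧ n ≤ x ∧ PropE n}.ncard : ℝ) := by
  refine ⟨fun F hF c hc => ?_, ?_⟩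
  · classical
    choose! k hk using fun D hD => (hF D hD).2
    set g : ℕ → ℕ × ℕ × ℕ := fun D =>
      (D, k D + orderOf (2 : ZMod D) - 1, orderOf (2 : ZMod D)) with hg
    have hginj : ∀ a ∈ F, ∀ b ∈ F, g a = g b → a = b := by
      intro a _ b _ hab
      simp only [hg, Prod.mk.injEq] at hab
      exact hab.1
    refine count_propE (F.image g) ?_ ?_ c ?_
    · intro t ht
      obtain ⟨D, hD, rfl⟩ := mem_image.1 ht
      obtain ⟨h1, h2⟩ := ord_facts D (hF D hD).1
      refine ⟨Nat.odd_iff.1 (hF D hD).1, h1, ?_, h2⟩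
      simp only [hg]
      have e : k D + orderOf (2 : ZMod D) - 1 + 1 = k D + orderOf (2 : ZMod D) := by omega
      rw [e, pow_add]
      calc 2 ^ k D * 2 ^ orderOf (2 : ZMod D) + W D ≡ 2 ^ k D * 1 + W D [MOD D] :=
            (Nat.ModEq.mul_left _ h2).add_right _
        _ = 2 ^ k D + W D := by ring
        _ ≡ 2 [MOD D] := hk D hD
    · intro t ht t' ht' e
      obtain ⟨D, hD, rfl⟩ := mem_image.1 ht
      obtain ⟨D', hD', rfl⟩ := mem_image.1 ht'
      simp only [hg] at e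
      rw [e]
    · rw [sum_image hginj]
      exact hc
  · obtain ⟨h1, h2, h3⟩ := table_spec
    exact count_propE table.toFinset h1 h2 5 h3

end Pool.Agent.Results.MP_2aed32_nt.LogCount
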