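import Pool.Agent.Lib.H74E.Core
import Pool.Agent.Lib.H74E.ClassB

/-!
Every residue class `r` modulo `m` contains at least `(1 / m - ε) log_2 x` integers `n ≤ x` such
that `n / 2 ^ n` is a sum of at least two distinct terms `a / 2 ^ a`.
-/

namespace Pool.Agent.Results.MP_2aed32_nt.ResidueClasses

open Finset Pool.Agent.Lib.H74E

/-- For every `m ≥ 1`, every residue `r` and every `ε > 0` there are, for all large `x`, at least
`(1 / m - ε) log_2 x` integers `n ≤ x` with `n ≡ r` modulo `m` and property E. -/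
theorem result (m : ℕ) (hm : 1 ≤ m) (r : ℕ) (ε : ℝ) (hε : 0 < ε) :
    ∀ᶠ x : ℕ in Filter.atTop,
      (1 / (m : ℝ) - ε) * Real.logb 2 x ≤
        ({n : ℕ | 1 ≤ n ∧ n ≤ x ∧ n ≡ r [MOD m] ∧ PropE n}.ncard : ℝ) := by
  classical
  obtain ⟨q, B, S, hq, hS, hSm, hcl⟩ := ClassB.classDens m hm r
  set F : Finset (ℕ × ℕ × ℕ) := S.image (fun l => (1, l, q)) with hFdef
  have hW : W 1 = 0 := by simp [W]
  have hF : ∀ t ∈ F, Fam t := by
    intro t ht
    obtain ⟨l, hl, rfl⟩ := mem_image.1 ht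
    exact ⟨rfl, hq, Nat.modEq_one, Nat.modEq_one⟩
  have hinj : ∀ t ∈ F, ∀ t' ∈ F, t.1 = t'.1 →
      ∀ L, L ≡ t.2.1 [MOD t.2.2] → L ≡ t'.2.1 [MOD t'.2.2] → t = t' := by
    intro t ht t' ht' _ L h1 h2
    obtain ⟨l, hl, rfl⟩ := mem_image.1 ht
    obtain ⟨l', hl', rfl⟩ := mem_image.1 ht'
    have h3 : l ≡ l' [MOD q] := h1.symm.trans h2
    have h4 : l = l' := by
      have a1 := Nat.mod_eq_of_lt (mem_range.1 (hS hl))
      have a2 := Nat.mod_eq_of_lt (mem_range.1 (hS hl'))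
      rw [← a1, ← a2]; exact h3
    rw [h4]
  obtain ⟨B', hB'⟩ := fam_bound F
  have hc : 1 / (m : ℝ) - ε < ∑ t ∈ F, (1 : ℝ) / t.2.2 := by
    have h1 : ∑ t ∈ F, (1 : ℝ) / t.2.2 = 1 / (m : ℝ) := by
      rw [hFdef, sum_image (fun a _ b _ hab => by simpa using hab)]
      simp only [sum_const, nsmul_eq_mul]
      have hm0 : (m : ℝ) ≠ 0 := by positivity
      have hq0 : (q : ℝ) ≠ 0 := by positivity
      have h2 : (S.card : ℝ) * m = q := by exact_mod_cast hSm
      field_simp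
      linarith
    rw [h1]; linarith
  have h := count_lower (fun n => n ≡ r [MOD m] ∧ PropE n) F hF hinj (max B B')
    (fun t ht L hL hmod => by
      have hLB : B ≤ L := (le_max_left _ _).trans hL
      have hLB' : B' ≤ L := (le_max_right _ _).trans hL
      refine ⟨?_, fam_propE t (hF t ht) L (hB' t ht L hLB').1 (hB' t ht L hLB').2.1 hmod
        (hB' t ht L hLB').2.2⟩
      obtain ⟨l, hl, rfl⟩ := mem_image.1 ht
      have h1 : L % q ∈ S := by
        have h2 : L % q = l % q := hmod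
        rw [h2, Nat.mod_eq_of_lt (mem_range.1 (hS hl))]
        exact hl
      have h3 := hcl L hLB h1
      simp only [f, hW, add_zero, Nat.div_one]
      exact h3) _ hc
  filter_upwards [h] with x hx
  have e : {n : ℕ | 1 ≤ n ∧ n ≤ x ∧ n ≡ r [MOD m] ∧ PropE n}
      = (({n ∈ Icc 1 x | n ≡ r [MOD m] ∧ PropE n} : Finset ℕ) : Set ℕ) := by
    ext n; simp [and_assoc]
  rw [e, Set.ncard_coe_finset]
  exact hx

end Pool.Agent.Results.MP_2aed32_nt.ResidueClasses
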